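import Pool.Agent.Helper37.Op.Fin
import Pool.Agent.NLL.Resid
import Pool.Agent.NLL.Place

/-!
# MP_6cbef8_nt: one residual torsion field suffices

`G` is a profinite group with finitely many open subgroups of each index (in the application the
Galois group of the maximal extension of `K` unramified outside a finite set of places), `D` a
subset whose closure has positive measure (the Frobenius elements of a set of places of positive
density), `E` a finite extension of `ℚ_p`, `n`, `m` integers and `c r` real numbers (Weil bounds).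
There are ONE element `r₀` of `D` and a number `N₀` such that the following holds.  Let `V`
(two-dimensional) and `T` (of dimension `n`) be representations over `E` with integral Frobenius
polynomials `f r`, `g r` over a number field of degree at most `m` satisfying these bounds.  Let `k`
be ONE residue field of `M`, of order larger than `N₀` and larger than a bound given by `c r₀`, of
characteristic `l`.  Let `ρ : Γ → GL_2(k)`, `τ : Γ → GL_n(F_l)` be residual representations of any
group (in the application the absolute Galois group of `K`) and `x ∈ Γ` an element at which they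
have the Frobenius polynomials `f r₀`, `g r₀`.  If `ρ` is irreducible of order divisible by `l` and
acts by scalars on the kernel of `τ`, then `V` is potentially contained in `T`.

The proof: homomorphisms between linear groups of bounded dimension over `F_l` are log-linear for
large `l` (`NLL.log_linear`, proved by counting points of products of one-parameter subgroups, with
annihilating polynomials of bounded degree), so the ratio of the eigenvalues of `ρ x` is a ratio of
eigenvalues of `τ x` (`NLL.residual`); this is an equality of algebraic integers of bounded size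
modulo a large prime, hence an equality, and a relation at the one place `r₀` (`NLL.exists_place`,
an adaptation of `Helper37.Op.exists_place`).
-/

set_option autoImplicit false
open MeasureTheory Polynomial NumberField Pool.Agent.Helper27.FM Pool.Agent.Helper37.Af
  Pool.Agent.Helper37.Op

namespace Pool.Agent.Helper21.Kept.OneTorsionFieldArchive

/-- the order of a residue field of characteristic `l` is at most `l ^ [M : ℚ]` -/
private theorem card_le {M : Type*} [Field M] [NumberField M] {k : Type*} [Field k] [Finite k]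
    (φ : 𝓞 M →+* k) (hφ : Function.Surjective φ) {l : ℕ} [hl : Fact l.Prime] [CharP k l] :
    Nat.card k ≤ l ^ Module.finrank ℚ M := by
  have h1 : Ideal.absNorm (RingHom.ker φ) = Nat.card k := by
    rw [Ideal.absNorm_apply, Submodule.cardQuot_apply]
    exact Nat.card_congr (RingHom.quotientKerEquivOfSurjective hφ).toEquiv
  have h2 : Ideal.span {((l : ℕ) : 𝓞 M)} ≤ RingHom.ker φ := by
    rw [Ideal.span_le, Set.singleton_subset_iff]
    show φ (l : 𝓞 M) = 0
    rw [map_natCast, CharP.cast_eq_zero]
  have h3 := Ideal.absNorm_dvd_absNorm_of_le h2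
  rw [h1, Ideal.absNorm_span_singleton] at h3
  have h4 : Algebra.norm ℤ ((l : ℕ) : 𝓞 M) = (l : ℤ) ^ Module.finrank ℚ M := by
    have h5 := Algebra.norm_algebraMap (S := 𝓞 M) ((l : ℕ) : ℤ)
    rw [RingOfIntegers.rank] at h5
    rw [← h5]
    simp
  rw [h4] at h3
  have h5 : ((l : ℤ) ^ Module.finrank ℚ M).natAbs = l ^ Module.finrank ℚ M := by
    rw [Int.natAbs_pow, Int.natAbs_natCast]
  rw [h5] at h3
  exact Nat.le_of_dvd (pow_pos hl.out.pos _) h3

theorem result (p : ℕ) [hp : Fact p.Prime]
    -- the coefficient field, a finite extension of `ℚ_p`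
    {E : Type*} [NontriviallyNormedField E] [IsUltrametricDist E] [ProperSpace E]
    [NormedAlgebra ℚ_[p] E]
    -- a profinite group with finitely many open subgroups of each index, with a Haar measure
    {G : Type*} [Group G] [TopologicalSpace G] [IsTopologicalGroup G] [CompactSpace G]
    [TotallyDisconnectedSpace G] [MeasurableSpace G] [BorelSpace G]
    (μ : Measure G) [μ.IsHaarMeasure] [μ.Regular]
    (hfin : ∀ m : ℕ, {U : Subgroup G | IsOpen (U : Set G) ∧ U.index ≤ m}.Finite)
    -- a subset whose closure has positive measure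
    {D : Set G} (hD : μ (closure D) ≠ 0)
    -- the dimension of `T`, a bound for the degree of `M`, and bounds for the roots
    (n m : ℕ) (c : G → ℝ) :
    ∃ (R : Set G) (r₀ : G) (N₀ : ℕ), R ⊆ D ∧ R.Finite ∧ r₀ ∈ R ∧
      ∀ (V : G →* GL (Fin 2) E) (T : G →* GL (Fin n) E) (M : Type) [Field M] [NumberField M]
        (ι : M →+* E) (f g : G → (𝓞 M)[X]),
        Continuous V → StronglyIrreducible V → Continuous T → Semisimple T →
        IdempotentGenerated p V T → Module.finrank ℚ M ≤ m →
        -- the Frobenius polynomials of `V` and `T` at the elements of `R` are those of `f`, `g`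
        (∀ r ∈ R, (V r : Matrix (Fin 2) (Fin 2) E).charpoly =
          (f r).map (ι.comp (algebraMap (𝓞 M) M))) →
        (∀ r ∈ R, (T r : Matrix (Fin n) (Fin n) E).charpoly =
          (g r).map (ι.comp (algebraMap (𝓞 M) M))) →
        -- their complex roots are bounded by `c r`
        (∀ r ∈ R, ∀ (σ : M →+* ℂ) (z : ℂ), (f r).eval₂ (σ.comp (algebraMap (𝓞 M) M)) z = 0 ∨
          (g r).eval₂ (σ.comp (algebraMap (𝓞 M) M)) z = 0 → ‖z‖ ≤ c r) →
        -- ONE residue field `k` of `M`, of large order and of characteristic `l`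
        ∀ (l : ℕ) [Fact l.Prime] (k : Type) [Field k] [Finite k] [CharP k l] (φ : 𝓞 M →+* k),
        Function.Surjective φ → N₀ < Nat.card k →
        (2 * c r₀ ^ 2) ^ (2 * n ^ 2 * Module.finrank ℚ M) < (Nat.card k : ℝ) →
        -- residual representations `ρ` over `k` and `τ` over the prime field of `k`
        ∀ (Γ : Type) [Group Γ] (ρ : Γ →* GL (Fin 2) k) (τ : Γ →* GL (Fin n) (ZMod l)) (x : Γ),
        (ρ x : Matrix (Fin 2) (Fin 2) k).charpoly = (f r₀).map φ →
        (τ x : Matrix (Fin n) (Fin n) (ZMod l)).charpoly.map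
          (ZMod.castHom (dvd_refl l) k) = (g r₀).map φ →
        -- `ρ` is irreducible and its image has order divisible by `l`
        (∀ v : Fin 2 → k, v ≠ 0 → ∃ y : Γ, ∀ s : k,
          (ρ y : Matrix (Fin 2) (Fin 2) k).mulVec v ≠ s • v) →
        (∃ y, l ∣ orderOf (ρ y)) →
        -- the kernel of `τ` acts by scalars under `ρ`
        (∀ y, τ y = 1 → ∃ s : k, (ρ y : Matrix (Fin 2) (Fin 2) k) = s • 1) →
        PotentiallyContained V T := by
  have hE0 : CharZero E := charZero_of_injective_algebraMap (algebraMap ℚ_[p] E).injective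
  obtain ⟨C, hC⟩ := NLL.residual n m
  obtain ⟨R, r₀, hRD, hRf, hr₀D, hR⟩ := NLL.exists_place p (E := E) μ hfin hD n
    (fun r => {q : E[X] | ∃ (M : Type) (_ : Field M) (_ : NumberField M) (ι : M →+* E)
      (f : (𝓞 M)[X]), Module.finrank ℚ M ≤ m ∧ f.Monic ∧ f.natDegree = 2 ∧
      (∀ (σ : M →+* ℂ) (z : ℂ), f.eval₂ (σ.comp (algebraMap (𝓞 M) M)) z = 0 → ‖z‖ ≤ c r) ∧
      q = f.map (ι.comp (algebraMap (𝓞 M) M))} ∪
      {q : E[X] | ∃ (M : Type) (_ : Field M) (_ : NumberField M) (ι : M →+* E)
      (f : (𝓞 M)[X]), Module.finrank ℚ M ≤ m ∧ f.Monic ∧ f.natDegree = n ∧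
      (∀ (σ : M →+* ℂ) (z : ℂ), f.eval₂ (σ.comp (algebraMap (𝓞 M) M)) z = 0 → ‖z‖ ≤ c r) ∧
      q = f.map (ι.comp (algebraMap (𝓞 M) M))})
    (fun r => (finite_polys E 2 m (c r)).union (finite_polys E n m (c r)))
  refine ⟨insert r₀ R, r₀, C ^ m, Set.insert_subset hr₀D hRD, hRf.insert r₀,
    Set.mem_insert _ _, fun V T M _ _ ι f g hV hirr hT hss hid hm hVf hTg hc l hl k _ _ _ φ hφ
      hk hck Γ _ ρ τ x hρf hτg hρ hρl hker => ?_⟩
  have hι : Function.Injective (ι.comp (algebraMap (𝓞 M) M)) :=
    ι.injective.comp (FaithfulSMul.algebraMap_injective (𝓞 M) M)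
  have hmonic : ∀ q : (𝓞 M)[X], (q.map (ι.comp (algebraMap (𝓞 M) M))).Monic → q.Monic :=
    fun q hq => monic_of_injective hι hq
  have hfm : ∀ r ∈ insert r₀ R, (f r).Monic := fun r hr =>
    hmonic _ (by rw [← hVf r hr]; exact Matrix.charpoly_monic _)
  have hgm : ∀ r ∈ insert r₀ R, (g r).Monic := fun r hr =>
    hmonic _ (by rw [← hTg r hr]; exact Matrix.charpoly_monic _)
  have hf2 : ∀ r ∈ insert r₀ R, (f r).natDegree = 2 := fun r hr => by
    rw [← natDegree_map_eq_of_injective hι, ← hVf r hr, Matrix.charpoly_natDegree_eq_dim,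
      Fintype.card_fin]
  have hgn : ∀ r ∈ insert r₀ R, (g r).natDegree = n := fun r hr => by
    rw [← natDegree_map_eq_of_injective hι, ← hTg r hr, Matrix.charpoly_natDegree_eq_dim,
      Fintype.card_fin]
  refine hR V T hV hirr hT hss hid (fun r hr => ⟨Or.inl ?_, Or.inr ?_⟩) ?_
  · have hr' := Set.mem_insert_of_mem r₀ hr
    exact ⟨M, inferInstance, inferInstance, ι, f r, hm, hfm r hr', hf2 r hr',
      fun σ z hz => hc r hr' σ z (Or.inl hz), hVf r hr'⟩
  · have hr' := Set.mem_insert_of_mem r₀ hr
    exact ⟨M, inferInstance, inferInstance, ι, g r, hm, hgm r hr', hgn r hr',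
      fun σ z hz => hc r hr' σ z (Or.inr hz), hTg r hr'⟩
  · have hr' := Set.mem_insert r₀ R
    have hCl : C < l := by
      by_contra hcon
      push Not at hcon
      have h1 : Nat.card k ≤ l ^ Module.finrank ℚ M := card_le φ hφ
      have h2 : l ^ Module.finrank ℚ M ≤ l ^ m := Nat.pow_le_pow_right hl.out.pos hm
      have h3 : l ^ m ≤ C ^ m := Nat.pow_le_pow_left hcon m
      omega
    let _ : Algebra (ZMod l) k := ZMod.algebra k l
    have hres := hC l hCl k ((card_le φ hφ).trans (Nat.pow_le_pow_right hl.out.pos hm)) Γ ρ τ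
      hker hρ hρl x
    have h1 := NLL.om_map φ (f r₀) (g r₀) (hgm r₀ hr') (ρ x : Matrix (Fin 2) (Fin 2) k)
      ((τ x : Matrix (Fin n) (Fin n) (ZMod l)).map (algebraMap (ZMod l) k)) hρf (by
        rw [← hτg, Matrix.charpoly_map]
        congr 1)
    rw [hres] at h1
    -- the bound is nonnegative, because `f r₀` has a complex root
    have hc0 : 0 ≤ c r₀ := by
      obtain ⟨σ⟩ : Nonempty (M →+* ℂ) := inferInstance
      have hdeg : ((f r₀).map (σ.comp (algebraMap (𝓞 M) M))).degree ≠ 0 := by
        rw [degree_eq_natDegree ((hfm r₀ hr').map _).ne_zero, (hfm r₀ hr').natDegree_map,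
          hf2 r₀ hr']
        norm_num
      obtain ⟨w, hw⟩ := IsAlgClosed.exists_root _ hdeg
      rw [IsRoot, eval_map] at hw
      exact (norm_nonneg w).trans (hc r₀ hr' σ w (Or.inl hw))
    have h2 := NLL.om_eq_zero (hfm r₀ hr') (hgm r₀ hr') (hf2 r₀ hr') (hgn r₀ hr') hc0
      (fun σ z hz => hc r₀ hr' σ z (Or.inl hz)) (fun σ z hz => hc r₀ hr' σ z (Or.inr hz))
      φ hφ h1.symm hck
    rw [NLL.om_map (ι.comp (algebraMap (𝓞 M) M)) (f r₀) (g r₀) (hgm r₀ hr') _ _ (hVf r₀ hr')
      (hTg r₀ hr'), h2, map_zero]

end Pool.Agent.Helper21.Kept.OneTorsionFieldArchive
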